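import Pool.Agent.N436.DF.Stm3

/-!
# Project DF, third batch: the closed set of potential 5 (helper100)
-/

set_option autoImplicit false

namespace Pool.Agent.N100.DF

open Finset Pool.Agent.N436.DF

variable {V : Type} [DecidableEq V] {H : Hub V}

theorem n1_nonneg (hH : Ok P13 H) (X C : Finset V) (f : V → Bool) : 0 ≤ n1 H X C f :=
  Finset.sum_nonneg fun _ _ => Finset.sum_nonneg fun _ _ => hH.m_nn _ _

theorem n1_mono (hH : Ok P13 H) (X : Finset V) {C C' : Finset V} (h : C ⊆ C') (f : V → Bool) :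
    n1 H X C f ≤ n1 H X C' f :=
  Finset.sum_le_sum fun _ _ => Finset.sum_le_sum_of_subset_of_nonneg h fun _ _ _ => hH.m_nn _ _

theorem n1_sdiff (X : Finset V) {C S : Finset V} (h : C ⊆ S) (f : V → Bool) :
    n1 H X S f = n1 H X C f + n1 H X (S \ C) f := by
  unfold n1
  rw [← Finset.sum_add_distrib]
  refine Finset.sum_congr rfl fun x _ => ?_
  rw [add_comm, Finset.sum_sdiff h]

theorem n1_le_mm (hH : Ok P13 H) (X C : Finset V) (f : V → Bool) : n1 H X C f ≤ mm H X C :=
  Finset.sum_le_sum_of_subset_of_nonneg (Finset.filter_subset _ _)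
    fun _ _ _ => Finset.sum_nonneg fun _ _ => hH.m_nn _ _

theorem sv_ge (hH : Ok P13 H) (f : V → Bool) (x z : V) :
    (if f x = true then 2 * H.m x z else 0) ≤ sv H f (fun _ _ => 0) x z := by
  have h1 : min (H.m x z) 0 = 0 := min_eq_right (hH.m_nn x z)
  unfold sv
  rw [h1]
  rcases hH.r01 x z with h2 | h2
  · rw [h2]
    split_ifs <;> simp
  · rw [h2]
    split_ifs <;> simp_all

theorem sum_sv_ge (hH : Ok P13 H) (X C : Finset V) (f : V → Bool) :
    2 * n1 H X C f ≤ ∑ x ∈ X, ∑ z ∈ C, sv H f (fun _ _ => 0) x z := by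
  have h1 : 2 * n1 H X C f = ∑ x ∈ X, ∑ z ∈ C, if f x = true then 2 * H.m x z else 0 := by
    unfold n1
    rw [Finset.sum_filter, Finset.mul_sum]
    refine Finset.sum_congr rfl fun x _ => ?_
    by_cases hx : f x = true
    · simp only [hx, if_true, Finset.mul_sum]
    · simp [hx]
  rw [h1]
  exact Finset.sum_le_sum fun x _ => Finset.sum_le_sum fun z _ => sv_ge hH f x z

theorem m1c5 (hb : S3_base) (hk : S3_kill) (h4 : S3_cl4) : S3_m1c5 := by
  intro V _ H S X v w f p M hcol _ hn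
  have mc := M.top.mc
  have hH : Ok P13 H := mc.ok
  obtain ⟨-, -, hsub, -, hmin⟩ := hb V H hH
  obtain ⟨hS2, hprop⟩ := hmin S mc
  have hXS := M.top.sub
  have hvS : v ∈ S := hXS M.hv
  have hwS : w ∈ S := (Finset.mem_sdiff.1 M.hw).1
  have hwX : w ∉ X := (Finset.mem_sdiff.1 M.hw).2
  obtain ⟨C, hCS, hCne, hC⟩ := hk V H S X f p (fun _ _ => 0) mc hXS ⟨v, M.hv⟩ hcol
    (fun _ _ => le_rfl) (fun x hx => by simpa using hcol.cap x hx)
  have hstar : hp H (X ∪ C) + 2 * n1 H X C f ≤ 5 := by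
    have h1 := sum_sv_ge hH X C f
    have h2 := M.top.h8
    omega
  have hn0 := n1_nonneg hH X C f
  have hZS : X ∪ C ⊆ S := Finset.union_subset hXS (hCS.trans Finset.sdiff_subset)
  have hXZ : X ⊂ X ∪ C := by
    refine Finset.ssubset_iff_subset_ne.2 ⟨Finset.subset_union_left, fun h => ?_⟩
    obtain ⟨c, hc⟩ := hCne
    exact (Finset.mem_sdiff.1 (hCS hc)).2 (h ▸ Finset.mem_union_right X hc)
  have hwC : w ∈ C := by
    by_contra hwC
    have h1 : RB H S (X ∪ C) := ⟨v, Finset.mem_union_left _ M.hv, w, by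
      rw [Finset.mem_sdiff, Finset.mem_union]
      exact ⟨hwS, fun h => h.elim hwX hwC⟩, M.hr⟩
    have h2 := M.top.max _ hXZ hZS h1
    omega
  have hne : X ∪ C ≠ S := by
    intro h
    have h1 : S \ X ⊆ C := by
      intro z hz
      rw [Finset.mem_sdiff] at hz
      rw [← h, Finset.mem_union] at hz
      exact hz.1.resolve_left hz.2
    have h2 := n1_mono hH X h1 f
    have h3 := hS2 (X ∪ C) hZS ⟨v, Finset.mem_union_left _ M.hv⟩
    omega
  have hcl : ¬ RB H S (X ∪ C) := fun h => by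
    have := M.top.rb8 _ hZS h
    omega
  have h3 := (hprop _ hZS ⟨v, Finset.mem_union_left _ M.hv⟩ hne).2
  -- a closed set of potential 3 which contains `X` takes most of the units
  have key : ∀ Y, X ⊆ Y → Y ⊆ X ∪ C → hp H Y ≤ 3 → 3 ≤ n1 H X C f := by
    intro Y hXY hYZ hY
    have hYS := hYZ.trans hZS
    have hYne : Y.Nonempty := ⟨v, hXY M.hv⟩
    have hYneS : Y ≠ S := fun h => hne (Finset.Subset.antisymm hZS (h ▸ hYZ))
    have h5 := (hprop Y hYS hYne hYneS).2
    have hc3 : C3 H S Y := ⟨mc, hYS, hYne, hYneS, fun h => by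
      have := M.top.rb8 _ hYS h
      omega, by omega⟩
    have h6 := M.out Y hc3 hXY
    have h7 := n1_le_mm hH X (S \ Y) f
    have h8 : n1 H X (S \ X) f = n1 H X (Y \ X) f + n1 H X ((S \ X) \ (Y \ X)) f :=
      n1_sdiff X (Finset.sdiff_subset_sdiff hYS subset_rfl) f
    have h9 : (S \ X) \ (Y \ X) = S \ Y := by
      ext z
      simp only [Finset.mem_sdiff]
      constructor
      · rintro ⟨⟨ha, hb⟩, hc⟩
        exact ⟨ha, fun hz => hc ⟨hz, hb⟩⟩
      · rintro ⟨ha, hb⟩
        exact ⟨⟨ha, fun hz => hb (hXY hz)⟩, fun hz => hb hz.1⟩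
    rw [h9] at h8
    have h10 : Y \ X ⊆ C := by
      intro z hz
      rw [Finset.mem_sdiff] at hz
      exact (Finset.mem_union.1 (hYZ hz.1)).resolve_left hz.2
    have h11 := n1_mono hH X h10 f
    omega
  refine ⟨C, hCS, hwC, hne, ?_⟩
  have h30 : hp H (X ∪ C) ≠ 3 := fun h => by
    have := key _ Finset.subset_union_left subset_rfl h.le
    omega
  have h40 : hp H (X ∪ C) ≠ 4 := fun h => by
    obtain ⟨D, hDZ, hD⟩ := h4 V H S (X ∪ C) mc
      (fun Y hY hr => by have := M.top.rb8 Y hY hr; omega) hZS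
      ⟨v, Finset.mem_union_left _ M.hv⟩ hne hcl h
    have hvD : v ∈ D := M.all D hD v hvS w hwS M.hr
    have h5 : RB H S (D ∩ X) := ⟨v, Finset.mem_inter.2 ⟨hvD, M.hv⟩, w, by
      rw [Finset.mem_sdiff, Finset.mem_inter]
      exact ⟨hwS, fun h => hwX h.2⟩, M.hr⟩
    have h6 := M.top.rb8 _ (Finset.inter_subset_right.trans hXS) h5
    have h7 := hsub D X
    have h8 := hD.h3
    have h9 := M.top.h8
    have := key (D ∪ X) Finset.subset_union_right
      (Finset.union_subset hDZ Finset.subset_union_left) (by omega)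
    omega
  exact ⟨by omega, by omega⟩

end Pool.Agent.N100.DF
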